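import Pool.Agent.W810.SYN.Stm

set_option autoImplicit false

namespace Pool.Agent.W411.SYN.FIN

open MeasureTheory AddCircle Filter Topology Pool.Agent.Results.MP_535799_an.NonSidon
open Pool.Agent.W810.SYN

noncomputable section

lemma coeff_le (g : L1) (n : ℤ) : ‖coeff g n‖ ≤ ‖g‖ := by
  unfold coeff fourierCoeff
  rw [L1.norm_eq_integral_norm]
  refine (norm_integral_le_integral_norm _).trans (le_of_eq ?_)
  refine integral_congr_ae (Filter.Eventually.of_forall fun t => ?_)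
  simp only [norm_smul]
  have : ‖(fourier (-n) t : ℂ)‖ = 1 := by
    rw [fourier_apply]
    exact Circle.norm_coe _
  rw [this, one_mul]

def gg (N K : ℕ) (n : ℤ) : ℝ := if |n| ≤ (K : ℤ) * ((N : ℤ) + 1) then 1 / ((N : ℝ) + 1) else 0

lemma gg_nonneg (N K : ℕ) (n : ℤ) : 0 ≤ gg N K n := by
  unfold gg
  split_ifs <;> positivity

lemma near1 (C N : ℕ) (n m : ℤ) (hm : |m| ≤ (N : ℤ) + 1)
    (h : |(m : ℝ) - n| ≤ C * Real.sqrt (1 + |(n : ℝ)|)) :
    |n| ≤ ((C ^ 2 + 3 : ℕ) : ℤ) * ((N : ℤ) + 1) := by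
  have hs : Real.sqrt (1 + |(n : ℝ)|) ^ 2 = 1 + |(n : ℝ)| := Real.sq_sqrt (by positivity)
  set s := Real.sqrt (1 + |(n : ℝ)|) with hsdef
  have hm' : |(m : ℝ)| ≤ (N : ℝ) + 1 := by exact_mod_cast hm
  have h1 : |(n : ℝ)| ≤ |(m : ℝ)| + |(m : ℝ) - n| := by
    have := abs_sub_abs_le_abs_sub (n : ℝ) (m : ℝ)
    rw [abs_sub_comm (n : ℝ) (m : ℝ)] at this
    linarith
  have h2 : |(n : ℝ)| ≤ ((C : ℝ) ^ 2 + 3) * ((N : ℝ) + 1) := by
    have hN : (0 : ℝ) ≤ N := Nat.cast_nonneg N
    have h3 : (C : ℝ) * s ≤ (s ^ 2 + C ^ 2) / 2 := by nlinarith [sq_nonneg (s - C)]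
    have h4 : |(n : ℝ)| ≤ 2 * N + 3 + (C : ℝ) ^ 2 := by nlinarith
    nlinarith [sq_nonneg (C : ℝ), mul_nonneg (sq_nonneg (C : ℝ)) hN]
  exact_mod_cast h2

lemma near2 (C M : ℕ) (n m : ℤ) (hn : ((2 * M + C ^ 2 + 1 : ℕ) : ℤ) ≤ |n|)
    (h : |(m : ℝ) - n| ≤ C * Real.sqrt (1 + |(n : ℝ)|)) : (M : ℤ) ≤ |m| := by
  have hs : Real.sqrt (1 + |(n : ℝ)|) ^ 2 = 1 + |(n : ℝ)| := Real.sq_sqrt (by positivity)
  set s := Real.sqrt (1 + |(n : ℝ)|) with hsdef
  have hn' : 2 * (M : ℝ) + (C : ℝ) ^ 2 + 1 ≤ |(n : ℝ)| := by exact_mod_cast hn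
  have h1 : |(n : ℝ)| ≤ |(m : ℝ)| + |(m : ℝ) - n| := by
    have := abs_sub_abs_le_abs_sub (n : ℝ) (m : ℝ)
    rw [abs_sub_comm (n : ℝ) (m : ℝ)] at this
    linarith
  have h2 : (M : ℝ) ≤ |(m : ℝ)| := by
    have h3 : (C : ℝ) * s ≤ (s ^ 2 + C ^ 2) / 2 := by nlinarith [sq_nonneg (s - C)]
    nlinarith
  exact_mod_cast h2

lemma d_bound (f : L1) (C N₁ N₂ : ℕ) (η G : ℤ → ℂ)
    (hG : ∀ m : ℤ, ‖G m‖ ≤ 3 * ((if |m| ≤ (N₁ : ℤ) + 1 then 1 / ((N₁ : ℝ) + 1) else 0) +
      (if |m| ≤ (N₂ : ℤ) + 1 then 1 / ((N₂ : ℝ) + 1) else 0)))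
    (hη : ∀ n n' : ℤ, n ≤ n' → coeff f n = coeff f n' →
      η n' - η n = ∑ m ∈ Finset.Ico n n', G m * (coeff f m - coeff f n))
    (n n' : ℤ) (he : coeff f n = coeff f n')
    (hd : |(n' : ℝ) - n| ≤ C * Real.sqrt (1 + |(n : ℝ)|)) (w : ℝ)
    (hw : ∀ m : ℤ, |(m : ℝ) - n| ≤ C * Real.sqrt (1 + |(n : ℝ)|) →
      ‖coeff f m - coeff f n‖ ≤ w) :
    ‖η n' - η n‖ ≤ C * Real.sqrt (1 + |(n : ℝ)|) *
      (3 * (gg N₁ (C ^ 2 + 3) n + gg N₂ (C ^ 2 + 3) n) * w) := by
  have hCs : 0 ≤ C * Real.sqrt (1 + |(n : ℝ)|) := by positivity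
  have hw0 : 0 ≤ w := (norm_nonneg _).trans (hw n (by simpa using hCs))
  have hif : ∀ (N : ℕ) (m : ℤ), |(m : ℝ) - n| ≤ C * Real.sqrt (1 + |(n : ℝ)|) →
      (if |m| ≤ (N : ℤ) + 1 then 1 / ((N : ℝ) + 1) else 0) ≤ gg N (C ^ 2 + 3) n := by
    intro N m hm
    by_cases h1 : |m| ≤ (N : ℤ) + 1
    · rw [if_pos h1]
      unfold gg
      rw [if_pos (near1 C N n m h1 hm)]
    · rw [if_neg h1]
      exact gg_nonneg _ _ _
  have hGm : ∀ m : ℤ, |(m : ℝ) - n| ≤ C * Real.sqrt (1 + |(n : ℝ)|) →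
      ‖G m‖ ≤ 3 * (gg N₁ (C ^ 2 + 3) n + gg N₂ (C ^ 2 + 3) n) := by
    intro m hm
    refine (hG m).trans ?_
    have h1 := hif N₁ m hm
    have h2 := hif N₂ m hm
    linarith
  have hg1 := gg_nonneg N₁ (C ^ 2 + 3) n
  have hg2 := gg_nonneg N₂ (C ^ 2 + 3) n
  have hsum : ∀ I : Finset ℤ, (∀ m ∈ I, |(m : ℝ) - n| ≤ C * Real.sqrt (1 + |(n : ℝ)|)) →
      (I.card : ℝ) ≤ C * Real.sqrt (1 + |(n : ℝ)|) →
      ‖∑ m ∈ I, G m * (coeff f m - coeff f n)‖ ≤ C * Real.sqrt (1 + |(n : ℝ)|) *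
        (3 * (gg N₁ (C ^ 2 + 3) n + gg N₂ (C ^ 2 + 3) n) * w) := by
    intro I hI hc
    calc ‖∑ m ∈ I, G m * (coeff f m - coeff f n)‖
        ≤ ∑ m ∈ I, (3 * (gg N₁ (C ^ 2 + 3) n + gg N₂ (C ^ 2 + 3) n) * w) := by
          refine norm_sum_le_of_le _ (fun m hm => ?_)
          rw [norm_mul]
          exact mul_le_mul (hGm m (hI m hm)) (hw m (hI m hm)) (norm_nonneg _) (by positivity)
      _ = I.card * (3 * (gg N₁ (C ^ 2 + 3) n + gg N₂ (C ^ 2 + 3) n) * w) := by
          rw [Finset.sum_const, nsmul_eq_mul]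
      _ ≤ _ := mul_le_mul_of_nonneg_right hc (by positivity)
  rcases le_total n n' with h | h
  · rw [hη n n' h he]
    have h0 : (n : ℝ) ≤ n' := by exact_mod_cast h
    rw [abs_of_nonneg (by linarith)] at hd
    refine hsum _ ?_ ?_
    · intro m hm
      rw [Finset.mem_Ico] at hm
      have h1 : (n : ℝ) ≤ m := by exact_mod_cast hm.1
      have h2 : (m : ℝ) ≤ n' := by exact_mod_cast hm.2.le
      rw [abs_of_nonneg (by linarith)]
      linarith
    · rw [Int.card_Ico]
      have : (((n' - n).toNat : ℤ) : ℝ) = (n' : ℝ) - n := by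
        rw [Int.toNat_of_nonneg (by omega)]
        push_cast
        ring
      have h3 : (((n' - n).toNat : ℕ) : ℝ) = (n' : ℝ) - n := by exact_mod_cast this
      rw [h3]
      exact hd
  · have h5 := hη n' n h he.symm
    rw [← norm_neg, neg_sub, h5, ← he]
    have h0 : (n' : ℝ) ≤ n := by exact_mod_cast h
    rw [abs_of_nonpos (by linarith)] at hd
    refine hsum _ ?_ ?_
    · intro m hm
      rw [Finset.mem_Ico] at hm
      have h1 : (n' : ℝ) ≤ m := by exact_mod_cast hm.1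
      have h2 : (m : ℝ) ≤ n := by exact_mod_cast hm.2.le
      rw [abs_of_nonpos (by linarith)]
      linarith
    · rw [Int.card_Ico]
      have : (((n - n').toNat : ℤ) : ℝ) = (n : ℝ) - n' := by
        rw [Int.toNat_of_nonneg (by omega)]
        push_cast
        ring
      have h3 : (((n - n').toNat : ℕ) : ℝ) = (n : ℝ) - n' := by exact_mod_cast this
      rw [h3]
      linarith

/-- pointwise bound -/
lemma q_bound (K N M : ℕ) (w1 w2 : ℝ) (n : ℤ) :
    (1 + |(n : ℝ)|) * (if |n| < (M : ℤ) then w1 else w2) ^ 2 * (gg N K n) ^ 2 ≤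
      if |n| ≤ (K : ℤ) * ((N : ℤ) + 1) then
        ((1 + (M : ℝ)) * w1 ^ 2 + (1 + K * ((N : ℝ) + 1)) * w2 ^ 2) / ((N : ℝ) + 1) ^ 2 else 0 := by
  unfold gg
  by_cases h1 : |n| ≤ (K : ℤ) * ((N : ℤ) + 1)
  · rw [if_pos h1, if_pos h1]
    have h1' : |(n : ℝ)| ≤ (K : ℝ) * ((N : ℝ) + 1) := by exact_mod_cast h1
    rw [div_pow, one_pow, mul_one_div]
    apply div_le_div_of_nonneg_right _ (by positivity)
    by_cases h2 : |n| < (M : ℤ)
    · rw [if_pos h2]
      have h2' : |(n : ℝ)| ≤ (M : ℝ) := by exact_mod_cast h2.le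
      have h3 : (1 + |(n : ℝ)|) * w1 ^ 2 ≤ (1 + (M : ℝ)) * w1 ^ 2 :=
        mul_le_mul_of_nonneg_right (by linarith) (sq_nonneg _)
      have h4 : 0 ≤ (1 + K * ((N : ℝ) + 1)) * w2 ^ 2 := by positivity
      linarith
    · rw [if_neg h2]
      have h3 : (1 + |(n : ℝ)|) * w2 ^ 2 ≤ (1 + K * ((N : ℝ) + 1)) * w2 ^ 2 :=
        mul_le_mul_of_nonneg_right (by linarith) (sq_nonneg _)
      have h4 : 0 ≤ (1 + (M : ℝ)) * w1 ^ 2 := by positivity
      linarith
  · rw [if_neg h1, if_neg h1]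
    simp

lemma sum_q (K N : ℕ) (Q : ℝ) (hQ : 0 ≤ Q) (F : Finset ℤ) :
    ∑ n ∈ F, (if |n| ≤ (K : ℤ) * ((N : ℤ) + 1) then Q else 0) ≤
      (2 * K + 1) * ((N : ℝ) + 1) * Q := by
  classical
  rw [← Finset.sum_filter, Finset.sum_const, nsmul_eq_mul]
  apply mul_le_mul_of_nonneg_right _ hQ
  have h1 : (F.filter (fun n : ℤ => |n| ≤ (K : ℤ) * ((N : ℤ) + 1))) ⊆
      Finset.Icc (-((K : ℤ) * ((N : ℤ) + 1))) ((K : ℤ) * ((N : ℤ) + 1)) := by
    intro n hn
    rw [Finset.mem_filter] at hn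
    rw [Finset.mem_Icc]
    exact abs_le.mp hn.2
  have h2 := Finset.card_le_card h1
  rw [Int.card_Icc] at h2
  have h3 : ((K : ℤ) * ((N : ℤ) + 1) + 1 - -((K : ℤ) * ((N : ℤ) + 1))).toNat =
      2 * (K * (N + 1)) + 1 := by
    have : (K : ℤ) * ((N : ℤ) + 1) + 1 - -((K : ℤ) * ((N : ℤ) + 1)) =
        ((2 * (K * (N + 1)) + 1 : ℕ) : ℤ) := by
      push_cast
      ring
    rw [this, Int.toNat_natCast]
  rw [h3] at h2
  have h4 : ((F.filter (fun n : ℤ => |n| ≤ (K : ℤ) * ((N : ℤ) + 1))).card : ℝ) ≤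
      2 * (K * ((N : ℝ) + 1)) + 1 := by exact_mod_cast h2
  have hN : (0 : ℝ) ≤ N := Nat.cast_nonneg N
  linarith

lemma Q_bound (K N N₀ M : ℕ) (w1 w2 : ℝ) (hN : N₀ ≤ N) :
    (2 * K + 1) * ((N : ℝ) + 1) *
      (((1 + (M : ℝ)) * w1 ^ 2 + (1 + K * ((N : ℝ) + 1)) * w2 ^ 2) / ((N : ℝ) + 1) ^ 2) ≤
      (2 * K + 1) * ((1 + (M : ℝ)) * w1 ^ 2 / ((N₀ : ℝ) + 1) + (1 + K) * w2 ^ 2) := by
  have h1 : (0 : ℝ) < (N : ℝ) + 1 := by positivity
  have h0 : (0 : ℝ) < (N₀ : ℝ) + 1 := by positivity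
  have e : (2 * K + 1) * ((N : ℝ) + 1) *
      (((1 + (M : ℝ)) * w1 ^ 2 + (1 + K * ((N : ℝ) + 1)) * w2 ^ 2) / ((N : ℝ) + 1) ^ 2) =
      (2 * K + 1) * ((1 + (M : ℝ)) * w1 ^ 2 / ((N : ℝ) + 1) +
        (1 / ((N : ℝ) + 1) + K) * w2 ^ 2) := by
    field_simp
  rw [e]
  apply mul_le_mul_of_nonneg_left _ (by positivity)
  have h2 : (1 + (M : ℝ)) * w1 ^ 2 / ((N : ℝ) + 1) ≤ (1 + (M : ℝ)) * w1 ^ 2 / ((N₀ : ℝ) + 1) := by
    apply div_le_div_of_nonneg_left (by positivity) h0
    have : (N₀ : ℝ) ≤ N := by exact_mod_cast hN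
    linarith
  have h3 : 1 / ((N : ℝ) + 1) ≤ 1 := by
    rw [div_le_one h1]
    have hN : (0 : ℝ) ≤ N := Nat.cast_nonneg N
    linarith
  have h4 : (1 / ((N : ℝ) + 1) + K) * w2 ^ 2 ≤ (1 + K) * w2 ^ 2 :=
    mul_le_mul_of_nonneg_right (by linarith) (sq_nonneg _)
  linarith

theorem main : S_FIN := by
  classical
  intro hRL hCLS hAPX r hr A hA hAc hAr B hB hBc hBe f hf
  obtain ⟨C0, hC0⟩ := hr
  obtain ⟨C, hC⟩ := exists_nat_ge C0
  have hr' : ∀ n : ℤ, Set.OrdConnected {m | r n m} ∨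
      ∀ m, r n m → |(m : ℝ) - n| ≤ C * Real.sqrt (1 + |(n : ℝ)|) := by
    intro n
    rcases hC0 n with h | h
    · exact Or.inl h
    · exact Or.inr (fun m hm => (h m hm).trans
        (mul_le_mul_of_nonneg_right hC (Real.sqrt_nonneg _)))
  have hco : ∀ m n, r m n → ∀ g ∈ A, coeff g m = coeff g n := fun m n h => (hAr m n).mpr h
  let rep : ℤ → ℤ := fun n => (Quotient.mk r n).out
  have hrep : ∀ n, r n (rep n) := fun n => r.symm (Quotient.mk_out (s := r) n)
  have hreq : ∀ m n, r m n → rep m = rep n := by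
    intro m n h
    have : (Quotient.mk r m) = (Quotient.mk r n) := Quotient.sound h
    simp only [rep, this]
  let Zs : Set ℤ := {n | ∀ g ∈ A, coeff g n = 0}
  have hZr : ∀ m n, r m n → m ∈ Zs → n ∈ Zs := by
    intro m n h hm g hg
    rw [← hco m n h g hg]
    exact hm g hg
  have hZone : ∀ m n, m ∈ Zs → n ∈ Zs → r m n := by
    intro m n hm hn
    exact (hAr m n).mp (fun g hg => by rw [hm g hg, hn g hg])
  have hS : ∀ n, ∃ S : Finset ℤ, n ∉ Zs → (∀ m, m ∈ S ↔ r n m) ∧ idem S ∈ B := by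
    intro n
    by_cases hn : n ∈ Zs
    · exact ⟨∅, fun h => absurd hn h⟩
    · have hn' : ¬ ∀ g ∈ A, coeff g n = 0 := hn
      push Not at hn'
      obtain ⟨g, hg, hgn⟩ := hn'
      obtain ⟨M, hM⟩ := (hRL g).1 ‖coeff g n‖ (norm_pos_iff.mpr hgn)
      have hSm : ∀ m, m ∈ (Finset.Icc (-(M : ℤ)) M).filter (fun m => r n m) ↔ r n m := by
        intro m
        rw [Finset.mem_filter, Finset.mem_Icc]
        constructor
        · exact fun h => h.2
        · intro h
          refine ⟨?_, h⟩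
          have h1 : |m| < (M : ℤ) := by
            by_contra h2
            have := hM m (by omega)
            rw [← hco n m h g hg] at this
            exact lt_irrefl _ this
          have := abs_lt.mp h1
          omega
      refine ⟨_, fun _ => ⟨hSm, ?_⟩⟩
      refine hBe _ (hCLS A hA hAc n _ ⟨g, hg, hgn⟩ ?_) (conv_idem _)
      intro m
      rw [hSm m]
      exact ⟨fun h => (hAr m n).mpr (r.symm h), fun h => r.symm ((hAr m n).mp h)⟩
  choose S hS using hS
  have hfB : f ∈ closure (B : Set L1) := by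
    rw [Metric.mem_closure_iff]
    intro ε hε
    obtain ⟨Zf, hZf1, hZf2⟩ : ∃ Zf : Finset ℤ, (Zs.Finite → ∀ n, n ∈ Zf ↔ n ∈ Zs) ∧
        (¬ Zs.Finite → Zf = ∅) := by
      by_cases h : Zs.Finite
      · exact ⟨h.toFinset, fun _ n => h.mem_toFinset, fun h' => absurd h h'⟩
      · exact ⟨∅, fun h' => absurd h' h, fun _ => rfl⟩
    set K : ℕ := C ^ 2 + 3 with hK
    set A1 : ℝ := 36 * C ^ 2 * ((2 * K + 1) * ((1 + K) * 4)) with hA1
    have hA1n : 0 ≤ A1 := by positivity
    set δ : ℝ := ε / (6 * (A1 + 1)) with hδ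
    have hδ0 : 0 < δ := by positivity
    obtain ⟨M0, hM0⟩ := (hRL f).1 δ hδ0
    set M : ℕ := 2 * M0 + C ^ 2 + 1 with hM
    set W : ℝ := ‖f‖ with hW
    set A2 : ℝ := 36 * C ^ 2 * ((2 * K + 1) * ((1 + (M : ℝ)) * (2 * W) ^ 2)) with hA2
    have hA2n : 0 ≤ A2 := by positivity
    obtain ⟨N₀, hN₀⟩ := exists_nat_ge (32 * A2 / ε ^ 2)
    set ε' : ℝ := ε / (6 * ((Zf.card : ℝ) + 1)) with hε'
    have hε'0 : 0 < ε' := by positivity
    obtain ⟨N₁, N₂, η, G, hN1, hN12, hη0, hGb, hηf, hfP⟩ := hAPX f ε' N₀ hε'0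
    set P : L1 := toL (poly (Finset.Icc (-(N₂ : ℤ) - 1) (N₂ + 1)) η) with hP
    have hPc : ∀ n, coeff P n = η n := by
      intro n
      rw [hP, coeff_toL_poly]
      split_ifs with h
      · rfl
      · rw [Finset.mem_Icc] at h
        rw [hη0 n]
        by_contra h2
        apply h
        have := abs_le.mp (not_lt.mp h2)
        omega
    have hfη : ∀ n, ‖coeff f n - η n‖ ≤ ε' := by
      intro n
      rw [← hPc n, ← coeff_sub]
      exact (coeff_le _ n).trans hfP.le
    set R : Finset ℤ := (Finset.Icc (-(N₂ : ℤ) - 1) (N₂ + 1)).filter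
      (fun m => rep m = m ∧ m ∉ Zs) with hR
    set h : L1 := ∑ m ∈ R, η m • idem (S m) with hh
    have hhB : h ∈ B := by
      refine Submodule.sum_mem _ (fun m hm => Submodule.smul_mem _ _ ?_)
      rw [hR, Finset.mem_filter] at hm
      exact (hS m hm.2.2).2
    have hhc : ∀ n, coeff h n = ∑ m ∈ R, η m * (if n ∈ S m then 1 else 0) := by
      intro n
      rw [hh, coeff_sum]
      exact Finset.sum_congr rfl (fun m _ => by rw [coeff_smul, coeff_idem])
    have hhZ : ∀ n, n ∈ Zs → coeff h n = 0 := by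
      intro n hn
      rw [hhc]
      refine Finset.sum_eq_zero (fun m hm => ?_)
      rw [hR, Finset.mem_filter] at hm
      rw [if_neg, mul_zero]
      intro h1
      rw [(hS m hm.2.2).1] at h1
      exact hm.2.2 (hZr n m (r.symm h1) hn)
    have hhN : ∀ n, n ∉ Zs → coeff h n = η (rep n) := by
      intro n hn
      have hrn : rep n ∉ Zs := fun h1 => hn (hZr _ _ (r.symm (hrep n)) h1)
      have hrr : rep (rep n) = rep n := (hreq n (rep n) (hrep n)).symm
      rw [hhc]
      have e1 : ∀ m ∈ R, η m * (if n ∈ S m then 1 else 0) = if m = rep n then η m else 0 := by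
        intro m hm
        rw [hR, Finset.mem_filter] at hm
        by_cases h1 : n ∈ S m
        · have h2 := ((hS m hm.2.2).1 n).mp h1
          rw [if_pos h1, if_pos (by rw [← hreq m n h2, hm.2.1]), mul_one]
        · rw [if_neg h1, if_neg, mul_zero]
          rintro rfl
          exact h1 (((hS _ hm.2.2).1 n).mpr (r.symm (hrep n)))
      rw [Finset.sum_congr rfl e1, Finset.sum_ite_eq']
      split_ifs with h1
      · rfl
      · rw [hη0 (rep n)]
        by_contra h2
        apply h1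
        rw [hR, Finset.mem_filter, Finset.mem_Icc]
        have := abs_le.mp (not_lt.mp h2)
        exact ⟨⟨by omega, by omega⟩, hrr, hrn⟩
    -- bound of the difference
    set Q : ℕ → ℝ := fun N => ((1 + (M : ℝ)) * (2 * W) ^ 2 +
      (1 + K * ((N : ℝ) + 1)) * (2 * δ) ^ 2) / ((N : ℝ) + 1) ^ 2 with hQ
    have hQn : ∀ N, 0 ≤ Q N := fun N => by simp only [hQ]; positivity
    have hdn : ∀ n, ‖coeff (P - h) n‖ ^ 2 ≤ (if n ∈ Zf then ε' ^ 2 else 0) + 18 * C ^ 2 *
        ((if |n| ≤ (K : ℤ) * ((N₁ : ℤ) + 1) then Q N₁ else 0) +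
          (if |n| ≤ (K : ℤ) * ((N₂ : ℤ) + 1) then Q N₂ else 0)) := by
      intro n
      have hnn : 0 ≤ 18 * (C : ℝ) ^ 2 *
          ((if |n| ≤ (K : ℤ) * ((N₁ : ℤ) + 1) then Q N₁ else 0) +
          (if |n| ≤ (K : ℤ) * ((N₂ : ℤ) + 1) then Q N₂ else 0)) := by
        have a1 : 0 ≤ (if |n| ≤ (K : ℤ) * ((N₁ : ℤ) + 1) then Q N₁ else 0) := by
          split_ifs
          · exact hQn _
          · exact le_rfl
        have a2 : 0 ≤ (if |n| ≤ (K : ℤ) * ((N₂ : ℤ) + 1) then Q N₂ else 0) := by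
          split_ifs
          · exact hQn _
          · exact le_rfl
        positivity
      have hnz : 0 ≤ (if n ∈ Zf then ε' ^ 2 else 0) := by
        split_ifs
        · positivity
        · exact le_rfl
      rw [coeff_sub, hPc]
      by_cases hn : n ∈ Zs
      · rw [hhZ n hn, sub_zero]
        by_cases hZ : Zs.Finite
        · rw [if_pos ((hZf1 hZ n).mpr hn)]
          have h1 := hfη n
          have hn' : coeff f n = 0 := hn f hf
          rw [hn', zero_sub, norm_neg] at h1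
          have h2 : ‖η n‖ ^ 2 ≤ ε' ^ 2 := pow_le_pow_left₀ (norm_nonneg _) h1 2
          linarith
        · -- infinite zero class
          have hcl : {m | r n m} = Zs := by
            ext m
            exact ⟨fun h1 => hZr n m h1 hn, fun h1 => hZone n m hn h1⟩
          have hord : Set.OrdConnected {m | r n m} := by
            rcases hr' n with h1 | h1
            · exact h1
            · exfalso
              apply hZ
              rw [← hcl]
              obtain ⟨L, hL⟩ := exists_nat_ge (C * Real.sqrt (1 + |(n : ℝ)|))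
              refine (Set.finite_Icc (n - L) (n + L)).subset ?_
              intro m hm
              have h2 := (h1 m hm).trans hL
              rw [abs_le] at h2
              constructor
              · have : ((n - L : ℤ) : ℝ) ≤ m := by push_cast; linarith
                exact_mod_cast this
              · have : (m : ℝ) ≤ ((n + L : ℤ) : ℝ) := by push_cast; linarith
                exact_mod_cast this
          obtain ⟨m, hm, hmb⟩ : ∃ m, r n m ∧ (N₂ : ℤ) + 1 < |m| := by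
            by_contra hcon
            push Not at hcon
            apply hZ
            rw [← hcl]
            refine (Set.finite_Icc (-((N₂ : ℤ) + 1)) ((N₂ : ℤ) + 1)).subset ?_
            intro m hm
            exact abs_le.mp (hcon m hm)
          have hηn : η n = 0 := by
            rcases le_total n m with h1 | h1
            · have h2 := hηf n m h1 (hco n m hm f hf)
              rw [Finset.sum_eq_zero, hη0 m hmb, zero_sub, neg_eq_zero] at h2
              · exact h2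
              · intro t ht
                rw [Finset.mem_Ico] at ht
                have h3 : r n t := hord.out (r.refl n) hm ⟨ht.1, ht.2.le⟩
                rw [hco n t h3 f hf, sub_self, mul_zero]
            · have h2 := hηf m n h1 (hco n m hm f hf).symm
              rw [Finset.sum_eq_zero, hη0 m hmb, sub_zero] at h2
              · exact h2
              · intro t ht
                rw [Finset.mem_Ico] at ht
                have h3 : r n t := hord.out hm (r.refl n) ⟨ht.1, ht.2.le⟩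
                rw [← hco n t h3 f hf, hco n m hm f hf, sub_self, mul_zero]
          rw [hηn, norm_zero]
          have : (0 : ℝ) ^ 2 = 0 := by norm_num
          rw [this]
          linarith
      · rw [hhN n hn]
        have hcr : coeff f n = coeff f (rep n) := hco _ _ (hrep n) f hf
        rcases hr' n with hord | hII
        · have : η (rep n) = η n := by
            rcases le_total n (rep n) with h1 | h1
            · have h2 := hηf n (rep n) h1 hcr
              rw [Finset.sum_eq_zero] at h2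
              · exact sub_eq_zero.mp h2
              · intro t ht
                rw [Finset.mem_Ico] at ht
                have h3 : r n t := hord.out (r.refl n) (hrep n) ⟨ht.1, ht.2.le⟩
                rw [hco n t h3 f hf, sub_self, mul_zero]
            · have h2 := hηf (rep n) n h1 hcr.symm
              rw [Finset.sum_eq_zero] at h2
              · exact (sub_eq_zero.mp h2).symm
              · intro t ht
                rw [Finset.mem_Ico] at ht
                have h3 : r n t := hord.out (hrep n) (r.refl n) ⟨ht.1, ht.2.le⟩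
                rw [← hco n t h3 f hf, hcr, sub_self, mul_zero]
          rw [this, sub_self, norm_zero]
          have : (0 : ℝ) ^ 2 = 0 := by norm_num
          rw [this]
          linarith
        · have hb := d_bound f C N₁ N₂ η G hGb hηf n (rep n) hcr (hII _ (hrep n))
            (if |n| < (M : ℤ) then 2 * W else 2 * δ) (by
              intro m hm
              by_cases h1 : |n| < (M : ℤ)
              · rw [if_pos h1]
                refine (norm_sub_le _ _).trans ?_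
                have := coeff_le f m
                have := coeff_le f n
                linarith
              · rw [if_neg h1]
                have h2 : (M : ℤ) ≤ |n| := not_lt.mp h1
                have h3 := near2 C M0 n m h2 hm
                have h4 := hM0 m h3
                have h5 : (M0 : ℤ) ≤ |n| := by
                  refine le_trans ?_ h2
                  rw [hM]
                  push_cast
                  nlinarith [sq_nonneg (C : ℤ)]
                have h6 := hM0 n h5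
                refine (norm_sub_le _ _).trans ?_
                linarith)
          rw [← norm_neg, neg_sub]
          have hs : Real.sqrt (1 + |(n : ℝ)|) ^ 2 = 1 + |(n : ℝ)| :=
            Real.sq_sqrt (by positivity)
          have h1 := q_bound K N₁ M (2 * W) (2 * δ) n
          have h2 := q_bound K N₂ M (2 * W) (2 * δ) n
          have h3 : ‖η (rep n) - η n‖ ^ 2 ≤ (C * Real.sqrt (1 + |(n : ℝ)|) *
              (3 * (gg N₁ K n + gg N₂ K n) * (if |n| < (M : ℤ) then 2 * W else 2 * δ))) ^ 2 :=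
            pow_le_pow_left₀ (norm_nonneg _) hb 2
          have h4 : (C * Real.sqrt (1 + |(n : ℝ)|) *
              (3 * (gg N₁ K n + gg N₂ K n) * (if |n| < (M : ℤ) then 2 * W else 2 * δ))) ^ 2 =
              9 * C ^ 2 * (Real.sqrt (1 + |(n : ℝ)|) ^ 2 *
                (if |n| < (M : ℤ) then 2 * W else 2 * δ) ^ 2) *
                (gg N₁ K n + gg N₂ K n) ^ 2 := by
            ring
          rw [hs] at h4
          set w : ℝ := (if |n| < (M : ℤ) then 2 * W else 2 * δ) with hw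
          have h5 : (gg N₁ K n + gg N₂ K n) ^ 2 ≤ 2 * (gg N₁ K n ^ 2 + gg N₂ K n ^ 2) := by
            nlinarith [sq_nonneg (gg N₁ K n - gg N₂ K n)]
          have h6 : 9 * (C : ℝ) ^ 2 * ((1 + |(n : ℝ)|) * w ^ 2) * (gg N₁ K n + gg N₂ K n) ^ 2 ≤
              9 * C ^ 2 * ((1 + |(n : ℝ)|) * w ^ 2) * (2 * (gg N₁ K n ^ 2 + gg N₂ K n ^ 2)) :=
            mul_le_mul_of_nonneg_left h5 (by positivity)
          have h7 : 9 * (C : ℝ) ^ 2 * ((1 + |(n : ℝ)|) * w ^ 2) *
              (2 * (gg N₁ K n ^ 2 + gg N₂ K n ^ 2)) = 18 * C ^ 2 *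
              ((1 + |(n : ℝ)|) * w ^ 2 * gg N₁ K n ^ 2 +
                (1 + |(n : ℝ)|) * w ^ 2 * gg N₂ K n ^ 2) := by ring
          have h8 : 18 * (C : ℝ) ^ 2 * ((1 + |(n : ℝ)|) * w ^ 2 * gg N₁ K n ^ 2 +
                (1 + |(n : ℝ)|) * w ^ 2 * gg N₂ K n ^ 2) ≤ 18 * C ^ 2 *
              ((if |n| ≤ (K : ℤ) * ((N₁ : ℤ) + 1) then Q N₁ else 0) +
                (if |n| ≤ (K : ℤ) * ((N₂ : ℤ) + 1) then Q N₂ else 0)) :=
            mul_le_mul_of_nonneg_left (add_le_add h1 h2) (by positivity)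
          linarith
    -- finite support
    set L : ℤ := (K : ℤ) * ((N₂ : ℤ) + 1) with hL
    set F : Finset ℤ := Finset.Icc (-L) L ∪ Zf with hF
    have hoff : ∀ n, n ∉ F → ‖coeff (P - h) n‖ ^ 2 = 0 := by
      intro n hn
      rw [hF, Finset.mem_union, Finset.mem_Icc] at hn
      push Not at hn
      have h1 := hdn n
      have h2 : ¬ |n| ≤ L := by
        intro h3
        have := abs_le.mp h3
        have := hn.1 this.1
        omega
      have h3 : ¬ |n| ≤ (K : ℤ) * ((N₁ : ℤ) + 1) := by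
        intro h4
        apply h2
        refine h4.trans ?_
        rw [hL]
        apply mul_le_mul_of_nonneg_left _ (by positivity)
        omega
      rw [if_neg hn.2, if_neg h3, if_neg h2] at h1
      have h4 : 0 ≤ ‖coeff (P - h) n‖ ^ 2 := sq_nonneg _
      linarith
    have hsm : Summable (fun n => ‖coeff (P - h) n‖ ^ 2) :=
      summable_of_ne_finset_zero (s := F) hoff
    have hts : ∑' n, ‖coeff (P - h) n‖ ^ 2 ≤ (ε / 2) ^ 2 := by
      rw [tsum_eq_sum (s := F) hoff]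
      refine (Finset.sum_le_sum (fun n _ => hdn n)).trans ?_
      rw [Finset.sum_add_distrib, ← Finset.mul_sum, Finset.sum_add_distrib]
      have s1 : ∑ n ∈ F, (if n ∈ Zf then ε' ^ 2 else 0) ≤ Zf.card * ε' ^ 2 := by
        rw [← Finset.sum_filter, Finset.sum_const, nsmul_eq_mul]
        apply mul_le_mul_of_nonneg_right _ (sq_nonneg _)
        have : (F.filter (fun n => n ∈ Zf)) ⊆ Zf := fun n hn => (Finset.mem_filter.mp hn).2
        exact_mod_cast Finset.card_le_card this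
      have s2 := (sum_q K N₁ (Q N₁) (hQn _) F).trans (Q_bound K N₁ N₀ M (2 * W) (2 * δ) hN1)
      have s3 := (sum_q K N₂ (Q N₂) (hQn _) F).trans
        (Q_bound K N₂ N₀ M (2 * W) (2 * δ) (hN1.trans hN12))
      have s4 : (Zf.card : ℝ) * ε' ^ 2 ≤ ε ^ 2 / 32 := by
        rw [hε', div_pow, mul_div_assoc', div_le_div_iff₀ (by positivity) (by norm_num)]
        have hz : (0 : ℝ) ≤ (Zf.card : ℝ) := Nat.cast_nonneg _
        have : (Zf.card : ℝ) * 32 ≤ (6 * ((Zf.card : ℝ) + 1)) ^ 2 := by nlinarith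
        nlinarith [sq_nonneg ε]
      have s5 : A1 * δ ^ 2 ≤ ε ^ 2 / 32 := by
        rw [hδ, div_pow, mul_div_assoc', div_le_div_iff₀ (by positivity) (by norm_num)]
        have : A1 * 32 ≤ (6 * (A1 + 1)) ^ 2 := by nlinarith
        nlinarith [sq_nonneg ε]
      have s6 : A2 / ((N₀ : ℝ) + 1) ≤ ε ^ 2 / 32 := by
        rw [div_le_iff₀ (by positivity)]
        rw [div_le_iff₀ (by positivity)] at hN₀
        nlinarith [sq_nonneg ε]
      have s7 : 18 * (C : ℝ) ^ 2 * ((∑ n ∈ F,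
          (if |n| ≤ (K : ℤ) * ((N₁ : ℤ) + 1) then Q N₁ else 0)) +
          ∑ n ∈ F, (if |n| ≤ (K : ℤ) * ((N₂ : ℤ) + 1) then Q N₂ else 0)) ≤
          18 * (C : ℝ) ^ 2 * (2 * ((2 * K + 1) *
            ((1 + (M : ℝ)) * (2 * W) ^ 2 / ((N₀ : ℝ) + 1) + (1 + K) * (2 * δ) ^ 2))) := by
        apply mul_le_mul_of_nonneg_left _ (by positivity)
        linarith
      have s8 : 18 * (C : ℝ) ^ 2 * (2 * ((2 * K + 1) *
            ((1 + (M : ℝ)) * (2 * W) ^ 2 / ((N₀ : ℝ) + 1) + (1 + K) * (2 * δ) ^ 2))) =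
          A2 / ((N₀ : ℝ) + 1) + A1 * δ ^ 2 := by
        rw [hA1, hA2]
        field_simp
        ring
      have hε2 : 0 < ε ^ 2 := by positivity
      nlinarith
    have hDn := norm_le_of_coeff (P - h) hsm (ε / 2) (by positivity) hts
    refine ⟨h, hhB, ?_⟩
    rw [dist_eq_norm]
    have hε'4 : ε' ≤ ε / 4 := by
      rw [hε']
      apply div_le_div_of_nonneg_left hε.le (by norm_num)
      have hz : (0 : ℝ) ≤ (Zf.card : ℝ) := Nat.cast_nonneg _
      linarith
    calc ‖f - h‖ = ‖(f - P) + (P - h)‖ := by rw [sub_add_sub_cancel]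
      _ ≤ ‖f - P‖ + ‖P - h‖ := norm_add_le _ _
      _ < ε := by linarith
  rw [hB.closure_eq] at hfB
  exact hfB

end

end Pool.Agent.W411.SYN.FIN
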